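import Pool.Agent.Y992.DZ.Fin

set_option autoImplicit false

/-! Proper `q`-colourings of `Z^d` are disordered for `q ≥ (2 + ε) d`, `d ≥ d₀(ε)`:
the critical number of colours satisfies `limsup q_c(d) / d ≤ 2`. -/

namespace Pool.Agent.Results.MP_2c424f_pr.TwoPlusEps

open Filter Topology Pool.Agent.Y992.DZ

/-- The corner `(1, …, 1)` of the box `{1, …, L + 1}^d`. -/
def lo (d L : ℕ) : Box d (L + 1) := ⟨fun _ => 1, fun _ => ⟨le_rfl, by push_cast; omega⟩⟩

/-- The corner `(L + 1, …, L + 1)` of the box `{1, …, L + 1}^d`. -/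
def hi (d L : ℕ) : Box d (L + 1) := ⟨fun _ => ((L + 1 : ℕ) : ℤ), fun _ => ⟨by push_cast; omega, le_rfl⟩⟩

/-- `D_{q,d}(L + 1)`: the probability that the two corners of `{1, …, L + 1}^d` get the same colour
in a uniformly random proper `q`-colouring, minus `1 / q`. -/
noncomputable def Dq (d q L : ℕ) : ℝ := corr d (L + 1) q (lo d L) (hi d L)

/-- Long-range order. -/
def LRO (d q : ℕ) : Prop := 2 ≤ q ∧ ¬ Tendsto (fun L : ℕ => Dq d q L) atTop (𝓝 0)

/-- For every `ε > 0` and all dimensions `d ≥ d₀(ε)`: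
(1) for every `q ≥ (2 + ε) d` there are `K` and `ρ < 1` such that for all `L` the correlation of
the colours at opposite corners of the box of side `L` is at most `K ρ^L`; the correlation of the
colours at any two points of the box is at most `K ρ^(ℓ¹-distance)`; and strong spatial mixing
holds: for every finite region `R` and any two boundary conditions which agree at all points
outside `R` at `ℓ¹`-distance less than `r` from the vertex `v ∈ R`, the distributions of the colour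
of `v` differ by at most `K ρ^r`;
(2) long-range order implies `q < (2 + ε) d`;
(3) the largest `q` with long-range order is at most `(2 + ε) d`. -/
theorem result (ε : ℝ) (hε : 0 < ε) : ∃ d0 : ℕ, ∀ d : ℕ, d0 ≤ d →
    (∀ q : ℕ, (2 + ε) * (d : ℝ) ≤ (q : ℝ) → ∃ K ρ : ℝ, 0 < K ∧ 0 < ρ ∧ ρ < 1 ∧
      (∀ L : ℕ, |Dq d q L| ≤ K * ρ ^ (L + 1)) ∧
      (∀ (L : ℕ) (u w : Box d L), |corr d L q u w| ≤ K * ρ ^ (∑ i, |u.1 i - w.1 i|).toNat) ∧
      (∀ (R : Finset (Fin d → ℤ)) (τ τ' : (Fin d → ℤ) → Fin q) (v : ↥R) (a : Fin q) (r : ℕ),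
        (∀ y, y ∉ R → (∑ i, |v.1 i - y i|) < (r : ℤ) → τ y = τ' y) →
        |bcPr d q R τ v a - bcPr d q R τ' v a| ≤ K * ρ ^ r)) ∧
    (∀ q : ℕ, LRO d q → (q : ℝ) < (2 + ε) * (d : ℝ)) ∧
    ((sSup {q : ℕ | LRO d q} : ℕ) : ℝ) ≤ (2 + ε) * (d : ℝ) := by
  obtain ⟨d0, l, A, hA, hl, hd0, hZ⟩ := t_ZB ε hε
  refine ⟨d0, fun d hd => ?_⟩
  have key : ∀ q : ℕ, (2 + ε) * (d : ℝ) ≤ (q : ℝ) → ∃ K ρ : ℝ, 0 < K ∧ 0 < ρ ∧ ρ < 1 ∧
      (∀ L : ℕ, |Dq d q L| ≤ K * ρ ^ (L + 1)) ∧
      (∀ (L : ℕ) (u w : Box d L), |corr d L q u w| ≤ K * ρ ^ (∑ i, |u.1 i - w.1 i|).toNat) ∧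
      (∀ (R : Finset (Fin d → ℤ)) (τ τ' : (Fin d → ℤ) → Fin q) (v : ↥R) (a : Fin q) (r : ℕ),
        (∀ y, y ∉ R → (∑ i, |v.1 i - y i|) < (r : ℤ) → τ y = τ' y) →
        |bcPr d q R τ v a - bcPr d q R τ' v a| ≤ K * ρ ^ r) := by
    intro q hq
    obtain ⟨hq2, hB⟩ := hZ d q hd hq
    obtain ⟨K1, ρ1, hK1, h01, h11, hS⟩ := Pool.Agent.Y434.DZ.t_SSM d q l A hA hl hq2 hB
    obtain ⟨ρ2, h02, h12, hP⟩ := pow_decay l hl
    have hC := Pool.Agent.Y907.DZ.t_COR d q l A hA hl hq2 hB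
    set ρ : ℝ := max ρ1 ρ2 with hρ
    have hρ0 : 0 < ρ := lt_max_of_lt_left h01
    have hρ1 : ρ < 1 := max_lt h11 h12
    set K0 : ℝ := max K1 (max (2 * A) 1) with hK0
    have k1 : K1 ≤ K0 := le_max_left _ _
    have k2 : 2 * A ≤ K0 := (le_max_left _ _).trans (le_max_right _ _)
    have k3 : 1 ≤ K0 := (le_max_right _ _).trans (le_max_right _ _)
    have hK0p : 0 < K0 := lt_of_lt_of_le one_pos k3
    have hKK : K0 ≤ K0 / ρ := by
      rw [le_div_iff₀ hρ0]
      nlinarith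
    have hcor : ∀ (L : ℕ) (u w : Box d L),
        |corr d L q u w| ≤ K0 * ρ ^ (∑ i, |u.1 i - w.1 i|).toNat := by
      intro L u w
      by_cases huw : u = w
      · subst huw
        simp only [sub_self, abs_zero, Finset.sum_const_zero, Int.toNat_zero, pow_zero, mul_one]
        exact (corr_le_one d L q u u).trans k3
      · refine (hC L u w huw).trans ?_
        set n := (∑ i, |u.1 i - w.1 i|).toNat
        calc A / 2 ^ (n / l) = A * (1 / 2 ^ (n / l)) := by ring
          _ ≤ A * (2 * ρ2 ^ n) := mul_le_mul_of_nonneg_left (hP n) hA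
          _ = (2 * A) * ρ2 ^ n := by ring
          _ ≤ K0 * ρ ^ n := by
              apply mul_le_mul k2 (pow_le_pow_left₀ h02.le (le_max_right _ _) n)
                (pow_nonneg h02.le n) hK0p.le
    refine ⟨K0 / ρ, ρ, by positivity, hρ0, hρ1, fun L => ?_, fun L u w => ?_,
      fun R τ τ' v a r h => ?_⟩
    · have h1 := hcor (L + 1) (lo d L) (hi d L)
      have h2 : L ≤ (∑ i, |(lo d L).1 i - (hi d L).1 i|).toNat := by
        have h3 : ∀ i : Fin d, |(lo d L).1 i - (hi d L).1 i| = (L : ℤ) := by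
          intro i
          simp only [lo, hi]
          push_cast
          rw [show (1 : ℤ) - (L + 1) = -(L : ℤ) by ring, abs_neg]
          exact abs_of_nonneg (by positivity)
        rw [Finset.sum_congr rfl fun i _ => h3 i, Finset.sum_const, Finset.card_univ,
          Fintype.card_fin, nsmul_eq_mul]
        have h4 : ((d : ℤ) * (L : ℤ)).toNat = d * L := by
          rw [← Nat.cast_mul]; exact Int.toNat_natCast _
        rw [h4]
        exact Nat.le_mul_of_pos_left L (by omega)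
      calc |Dq d q L| ≤ K0 * ρ ^ (∑ i, |(lo d L).1 i - (hi d L).1 i|).toNat := h1
        _ ≤ K0 * ρ ^ L :=
            mul_le_mul_of_nonneg_left (pow_le_pow_of_le_one hρ0.le hρ1.le h2) hK0p.le
        _ = K0 / ρ * ρ ^ (L + 1) := by
            rw [pow_succ]; field_simp
    · exact (hcor L u w).trans (mul_le_mul_of_nonneg_right hKK (by positivity))
    · refine (hS R τ τ' v a r h).trans ?_
      apply mul_le_mul (k1.trans hKK) (pow_le_pow_left₀ h01.le (le_max_left _ _) r)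
        (pow_nonneg h01.le r) (by positivity)
  have key2 : ∀ q : ℕ, LRO d q → (q : ℝ) < (2 + ε) * (d : ℝ) := by
    intro q hq
    by_contra hcon
    obtain ⟨K, ρ, hK, h0, h1, h2, _, _⟩ := key q (not_lt.1 hcon)
    apply hq.2
    have h3 : Tendsto (fun L : ℕ => K * ρ ^ (L + 1)) atTop (𝓝 0) := by
      have h4 := (tendsto_pow_atTop_nhds_zero_of_lt_one h0.le h1).comp (tendsto_add_atTop_nat 1)
      simpa using h4.const_mul K
    exact squeeze_zero_norm (fun L => by simpa only [Real.norm_eq_abs] using h2 L) h3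
  refine ⟨key, key2, ?_⟩
  by_cases hne : ({q : ℕ | LRO d q}).Nonempty
  · have hbd : BddAbove {q : ℕ | LRO d q} := by
      refine ⟨⌈(2 + ε) * (d : ℝ)⌉₊, fun q hq => ?_⟩
      have h1 := (key2 q hq).le.trans (Nat.le_ceil _)
      exact_mod_cast h1
    exact (key2 _ (Nat.sSup_mem hne hbd)).le
  · rw [Set.not_nonempty_iff_eq_empty.1 hne]
    simp only [csSup_empty, bot_eq_zero', Nat.cast_zero]
    positivity

end Pool.Agent.Results.MP_2c424f_pr.TwoPlusEps
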